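import Pool.Agent.U337.EM.Stm

/-!
# Project EM, package PM (helper796): the connection on `M[t]`
-/

set_option autoImplicit false

namespace Pool.Agent.U796.EM

open Finset Pool.Agent.U337.EM

section

variable {S M : Type} [CommRing S] [AddCommGroup M] [Module S M] {K : ℕ}

/-- the connection -/
noncomputable def nab (S : Type) {M : Type} [CommRing S] [AddCommGroup M] [Module S M] {K : ℕ}
    (D : Fin K → (M →+ M)) : PolynomialModule S M →+ PolynomialModule S M :=
  (Finsupp.liftAddHom (fun i : ℕ =>
    i • (PolynomialModule.lsingle S (i - 1) : M →ₗ[S] PolynomialModule S M).toAddMonoidHom -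
      ∑ j : Fin K, ((PolynomialModule.lsingle S (i + j) : M →ₗ[S] PolynomialModule S M).toAddMonoidHom).comp
        (D j))).comp (PolynomialModule.coeffAddEquiv (R := S) (M := M)).toAddMonoidHom

theorem nab_single (D : Fin K → (M →+ M)) (i : ℕ) (m : M) :
    nab S D (PolynomialModule.single S i m) = i • PolynomialModule.single S (i - 1) m -
      ∑ j : Fin K, PolynomialModule.single S (i + j) (D j m) := by
  unfold nab
  refine (Finsupp.liftAddHom_apply_single _ _ _).trans ?_
  simp only [AddMonoidHom.sub_apply, AddMonoidHom.finsetSum_apply, AddMonoidHom.smul_apply]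
  rfl

/-- the projection on `M[t]` -/
noncomputable def prt0 (pr : M →ₗ[S] S) : PolynomialModule S M →+ Polynomial S :=
  (Finsupp.liftAddHom (fun i : ℕ =>
    ((Polynomial.monomial i : S →ₗ[S] Polynomial S).toAddMonoidHom).comp pr.toAddMonoidHom)).comp
      (PolynomialModule.coeffAddEquiv (R := S) (M := M)).toAddMonoidHom

theorem prt0_single (pr : M →ₗ[S] S) (i : ℕ) (m : M) :
    prt0 pr (PolynomialModule.single S i m) = Polynomial.monomial i (pr m) := by
  unfold prt0
  exact Finsupp.liftAddHom_apply_single _ _ _

/-- the projection is linear -/
noncomputable def prt (pr : M →ₗ[S] S) : PolynomialModule S M →ₗ[Polynomial S] Polynomial S where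
  toFun := prt0 pr
  map_add' := map_add _
  map_smul' := by
    intro q m
    show prt0 pr (q • m) = q • prt0 pr m
    induction q using Polynomial.induction_on' with
    | add p q hp hq => rw [add_smul, map_add, hp, hq, add_smul]
    | monomial k s =>
      induction m using PolynomialModule.induction_linear with
      | zero => rw [smul_zero, map_zero, smul_zero]
      | add a b ha hb => rw [smul_add, map_add, ha, hb, map_add, smul_add]
      | single i m =>
        rw [PolynomialModule.monomial_smul_single, prt0_single, prt0_single, map_smul, smul_eq_mul,
          smul_eq_mul, Polynomial.monomial_mul_monomial]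

/-- the connection on the ring -/
noncomputable def nabS (δ : Fin K → (S →+ S)) : Polynomial S →+ Polynomial S :=
  ((PolynomialModule.equivPolynomialSelf (R := S)).toLinearMap.toAddMonoidHom).comp
    ((nab S δ).comp ((PolynomialModule.equivPolynomialSelf (R := S)).symm.toLinearMap.toAddMonoidHom))

theorem e_single (i : ℕ) (s : S) : PolynomialModule.equivPolynomialSelf (PolynomialModule.single S i s) =
    Polynomial.monomial i s := by
  rw [PolynomialModule.equivPolynomialSelf_apply_eq]
  exact PolynomialModule.equivPolynomial_single i s

theorem nabS_mon (δ : Fin K → (S →+ S)) (i : ℕ) (s : S) :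
    nabS δ (Polynomial.monomial i s) = i • Polynomial.monomial (i - 1) s -
      ∑ j : Fin K, Polynomial.monomial (i + j) (δ j s) := by
  show PolynomialModule.equivPolynomialSelf (nab S δ
    (PolynomialModule.equivPolynomialSelf.symm (Polynomial.monomial i s))) = _
  rw [← e_single, LinearEquiv.symm_apply_apply, nab_single, map_sub, map_nsmul, e_single, map_sum]
  simp only [e_single]

theorem leib (D : Fin K → (M →+ M)) (δ : Fin K → (S →+ S))
    (h : ∀ j (s : S) m, D j (s • m) = s • D j m + δ j s • m) (q : Polynomial S) (m : PolynomialModule S M) :
    nab S D (q • m) = nabS δ q • m + q • nab S D m := by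
  induction q using Polynomial.induction_on' with
  | add p q hp hq => rw [add_smul, map_add, hp, hq, map_add, add_smul, add_smul]; abel
  | monomial k s =>
    induction m using PolynomialModule.induction_linear with
    | zero => rw [smul_zero, map_zero, smul_zero, smul_zero, add_zero]
    | add a b ha hb => rw [smul_add, map_add, ha, hb, smul_add, map_add, smul_add]; abel
    | single i m =>
      rw [PolynomialModule.monomial_smul_single, nab_single, nab_single, nabS_mon, sub_smul, smul_sub,
        Finset.sum_smul, Finset.smul_sum]
      simp only [PolynomialModule.monomial_smul_single, h, PolynomialModule.single_add,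
        Finset.sum_add_distrib]
      have e1 : (k • Polynomial.monomial (k - 1) s) • PolynomialModule.single S i m =
          k • PolynomialModule.single S (k + i - 1) (s • m) := by
        rw [smul_assoc, PolynomialModule.monomial_smul_single]
        rcases Nat.eq_zero_or_pos k with rfl | hk
        · rw [zero_smul, zero_smul]
        · rw [show k - 1 + i = k + i - 1 by omega]
      have e2 : Polynomial.monomial k s • (i • PolynomialModule.single S (i - 1) m) =
          i • PolynomialModule.single S (k + i - 1) (s • m) := by
        rw [smul_comm, PolynomialModule.monomial_smul_single]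
        rcases Nat.eq_zero_or_pos i with rfl | hi
        · rw [zero_smul, zero_smul]
        · rw [show k + (i - 1) = k + i - 1 by omega]
      have e3 : ∑ j : Fin K, PolynomialModule.single S (k + i + ↑j) (s • D j m) =
          ∑ j : Fin K, PolynomialModule.single S (k + (i + ↑j)) (s • D j m) :=
        Finset.sum_congr rfl fun j _ => by rw [add_assoc]
      have e4 : ∑ j : Fin K, PolynomialModule.single S (k + i + ↑j) (δ j s • m) =
          ∑ j : Fin K, PolynomialModule.single S (k + ↑j + i) (δ j s • m) :=
        Finset.sum_congr rfl fun j _ => by rw [add_right_comm]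
      rw [e1, e2, e3, e4, add_smul]
      abel

end

theorem t_PM : S_PM := by
  intro F _ S M _ _ _ _ _ _ pr K δ D hD hpr
  set D' : Fin K → (M →+ M) := fun j => (D j).toAddMonoidHom with hD'
  set δ' : Fin K → (S →+ S) := fun j => (δ j : S →ₗ[F] S).toAddMonoidHom with hδ'
  have h : ∀ j (s : S) m, D' j (s • m) = s • D' j m + δ' j s • m := hD
  have h2 : ∀ j (s q : S), δ' j (s • q) = s • δ' j q + δ' j s • q := by
    intro j s q
    show δ j (s * q) = s * δ j q + δ j s * q
    rw [Derivation.leibniz, smul_eq_mul, smul_eq_mul, mul_comm q]
  refine ⟨nab S D', nabS δ', prt pr, ?_, ?_, ?_, ?_, ?_, ?_, ?_⟩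
  · intro i m
    exact prt0_single pr i m
  · exact leib D' δ' h
  · intro q q'
    have h3 := leib (M := S) δ' δ' h2 q (PolynomialModule.equivPolynomialSelf.symm q')
    rw [← map_smul] at h3
    have h4 := congrArg PolynomialModule.equivPolynomialSelf h3
    have h5 : PolynomialModule.equivPolynomialSelf
        (q • (nab S δ') (PolynomialModule.equivPolynomialSelf.symm q')) =
        q • PolynomialModule.equivPolynomialSelf
          ((nab S δ') (PolynomialModule.equivPolynomialSelf.symm q')) := LinearEquiv.map_smul _ _ _
    have h6 : PolynomialModule.equivPolynomialSelf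
        ((nabS δ') q • PolynomialModule.equivPolynomialSelf.symm q') =
        (nabS δ') q • PolynomialModule.equivPolynomialSelf
          (PolynomialModule.equivPolynomialSelf.symm q') := LinearEquiv.map_smul _ _ _
    rw [map_add, h5, h6, LinearEquiv.apply_symm_apply] at h4
    exact h4
  · intro m
    show prt0 pr (nab S D' m) = nabS δ' (prt0 pr m)
    induction m using PolynomialModule.induction_linear with
    | zero => simp
    | add a b ha hb => rw [map_add, map_add, ha, hb, map_add, map_add]
    | single i m =>
      rw [nab_single, map_sub, map_nsmul, prt0_single, prt0_single, nabS_mon, map_sum]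
      congr 1
      refine Finset.sum_congr rfl fun j _ => ?_
      rw [prt0_single]
      congr 1
      exact hpr j m
  · have : (Polynomial.X : Polynomial S) = Polynomial.monomial 1 1 := rfl
    rw [this, nabS_mon]
    have h5 : ∀ j : Fin K, δ' j 1 = 0 := fun j => (δ j).map_one_eq_zero
    simp [h5]
  · intro s
    rw [← Polynomial.monomial_zero_left, nabS_mon, zero_smul, zero_sub]
    congr 1
    refine Finset.sum_congr rfl fun j _ => ?_
    rw [zero_add, Polynomial.C_mul_X_pow_eq_monomial]
    rfl
  · intro m
    rw [nab_single, zero_smul, zero_sub]
    congr 1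
    refine Finset.sum_congr rfl fun j _ => ?_
    rw [zero_add]
    rfl

end Pool.Agent.U796.EM
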